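import Mathlib
import Pool.Agent.Helper54.KRPower

set_option autoImplicit false

namespace Pool.Agent.Results.MP_d55beb_gt.ArensPower

open Set Topology

/-- The points of the Arens space `S_2`: the point `infty`, the points `a n` and the points
`aa n m`. -/
inductive Arens : Type
  | infty : Arens
  | a (n : ℕ) : Arens
  | aa (n m : ℕ) : Arens

/-- The topology of the Arens space: a set `U` is open when it contains a tail
`{aa n m : m ≥ k}` for every `a n ∈ U`, and a tail `{a n : n ≥ k}` in case `infty ∈ U`. -/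
instance : TopologicalSpace Arens where
  IsOpen U := (∀ n, Arens.a n ∈ U → ∃ k, ∀ m, k ≤ m → Arens.aa n m ∈ U) ∧
    (Arens.infty ∈ U → ∃ k, ∀ n, k ≤ n → Arens.a n ∈ U)
  isOpen_univ := ⟨fun _ _ => ⟨0, fun _ _ => trivial⟩, fun _ => ⟨0, fun _ _ => trivial⟩⟩
  isOpen_inter := by
    rintro U V ⟨hU1, hU2⟩ ⟨hV1, hV2⟩
    refine ⟨?_, ?_⟩
    · rintro n ⟨hnU, hnV⟩
      obtain ⟨k, hk⟩ := hU1 n hnU
      obtain ⟨l, hl⟩ := hV1 n hnV
      exact ⟨max k l, fun m hm => ⟨hk m (le_trans (le_max_left _ _) hm),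
        hl m (le_trans (le_max_right _ _) hm)⟩⟩
    · rintro ⟨hiU, hiV⟩
      obtain ⟨k, hk⟩ := hU2 hiU
      obtain ⟨l, hl⟩ := hV2 hiV
      exact ⟨max k l, fun m hm => ⟨hk m (le_trans (le_max_left _ _) hm),
        hl m (le_trans (le_max_right _ _) hm)⟩⟩
  isOpen_sUnion := by
    intro S hS
    refine ⟨?_, ?_⟩
    · rintro n ⟨U, hUS, hnU⟩
      obtain ⟨k, hk⟩ := (hS U hUS).1 n hnU
      exact ⟨k, fun m hm => ⟨U, hUS, hk m hm⟩⟩
    · rintro ⟨U, hUS, hiU⟩
      obtain ⟨k, hk⟩ := (hS U hUS).2 hiU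
      exact ⟨k, fun m hm => ⟨U, hUS, hk m hm⟩⟩

theorem isOpen_arens {U : Set Arens} : IsOpen U ↔
    (∀ n, Arens.a n ∈ U → ∃ k, ∀ m, k ≤ m → Arens.aa n m ∈ U) ∧
    (Arens.infty ∈ U → ∃ k, ∀ n, k ≤ n → Arens.a n ∈ U) := Iff.rfl

/-- The basic neighbourhood of `a n` given by `k`. -/
def basicA (n k : ℕ) : Set Arens := {x | x = Arens.a n ∨ ∃ m, k ≤ m ∧ x = Arens.aa n m}

/-- The basic neighbourhood of `infty` given by `k` and the sequence `g`. -/
def basicInfty (k : ℕ) (g : ℕ → ℕ) : Set Arens :=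
  {x | x = Arens.infty ∨ ∃ n, k ≤ n ∧ x ∈ basicA n (g n)}

/-- Sanity check: the neighbourhoods of `a n` are as in the usual definition. -/
theorem mem_nhds_a {n : ℕ} {U : Set Arens} : U ∈ 𝓝 (Arens.a n) ↔ ∃ k, basicA n k ⊆ U := by
  rw [mem_nhds_iff]
  constructor
  · rintro ⟨V, hVU, hV, hn⟩
    obtain ⟨k, hk⟩ := hV.1 n hn
    refine ⟨k, ?_⟩
    rintro x (rfl | ⟨m, hm, rfl⟩)
    · exact hVU hn
    · exact hVU (hk m hm)
  · rintro ⟨k, hk⟩
    refine ⟨basicA n k, hk, ?_, Or.inl rfl⟩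
    refine ⟨?_, ?_⟩
    · rintro n' (h | ⟨m, _, h⟩)
      · injection h with h; subst h
        exact ⟨k, fun m hm => Or.inr ⟨m, hm, rfl⟩⟩
      · exact absurd h (by simp)
    · rintro (h | ⟨m, _, h⟩)
      · exact absurd h (by simp)
      · exact absurd h (by simp)

/-- Sanity check: the neighbourhoods of `infty` are as in the usual definition. -/
theorem mem_nhds_infty {U : Set Arens} :
    U ∈ 𝓝 Arens.infty ↔ ∃ k g, basicInfty k g ⊆ U := by
  rw [mem_nhds_iff]
  constructor
  · rintro ⟨V, hVU, hV, hi⟩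
    obtain ⟨k, hk⟩ := hV.2 hi
    have h1 : ∀ n, ∃ l, k ≤ n → ∀ m, l ≤ m → Arens.aa n m ∈ V := by
      intro n
      by_cases hn : k ≤ n
      · obtain ⟨l, hl⟩ := hV.1 n (hk n hn)
        exact ⟨l, fun _ => hl⟩
      · exact ⟨0, fun h => absurd h hn⟩
    choose g hg using h1
    refine ⟨k, g, ?_⟩
    rintro x (rfl | ⟨n, hn, (rfl | ⟨m, hm, rfl⟩)⟩)
    · exact hVU hi
    · exact hVU (hk n hn)
    · exact hVU (hg n hn m hm)
  · rintro ⟨k, g, hk⟩
    refine ⟨basicInfty k g, hk, ?_, Or.inl rfl⟩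
    refine ⟨?_, ?_⟩
    · rintro n (h | ⟨n', hn', (h | ⟨m, _, h⟩)⟩)
      · exact absurd h (by simp)
      · injection h with h; subst h
        exact ⟨g n, fun m hm => Or.inr ⟨n, hn', Or.inr ⟨m, hm, rfl⟩⟩⟩
      · exact absurd h (by simp)
    · intro _
      exact ⟨k, fun n hn => Or.inr ⟨n, hn, Or.inl rfl⟩⟩

theorem isOpen_singleton_aa (n m : ℕ) : IsOpen ({Arens.aa n m} : Set Arens) := by
  refine ⟨?_, ?_⟩
  · intro n' h
    exact absurd h (by simp)
  · intro h
    exact absurd h (by simp)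

theorem isClosed_singleton_aa (n m : ℕ) : IsClosed ({Arens.aa n m} : Set Arens) := by
  rw [← isOpen_compl_iff]
  refine ⟨?_, ?_⟩
  · intro n' _
    refine ⟨m + 1, ?_⟩
    intro m' hm' h
    simp only [mem_singleton_iff, Arens.aa.injEq] at h
    omega
  · intro _
    exact ⟨0, fun n' _ => by simp⟩

theorem compact_columns (K : Set Arens) (hK : IsCompact K) :
    ∃ N : ℕ, ∀ n m, Arens.aa n m ∈ K → n ≤ N := by
  classical
  by_contra hcon
  push Not at hcon
  -- pick a point of `K` in arbitrarily late columns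
  have hex : ∀ N, ∃ n, N < n ∧ ∃ m, Arens.aa n m ∈ K := by
    intro N
    obtain ⟨n, m, h, hn⟩ := hcon N
    exact ⟨n, hn, m, h⟩
  set g : ℕ → ℕ := fun n => if h : ∃ m, Arens.aa n m ∈ K then h.choose + 1 else 0 with hg
  -- the set of chosen points
  set D : Set Arens := {x | ∃ n m, x = Arens.aa n m ∧ m + 1 = g n} with hD
  have hDinf : (D ∩ K).Infinite := by
    intro hfin
    have : ((fun x : Arens => match x with | Arens.aa n _ => n | _ => 0) '' (D ∩ K)).Finite :=
      hfin.image _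
    obtain ⟨B, hB⟩ := this.bddAbove
    obtain ⟨n, hn, hm⟩ := hex B
    have h1 : g n = hm.choose + 1 := by simp only [hg, dif_pos hm]
    have h2 : Arens.aa n hm.choose ∈ D ∩ K := ⟨⟨n, hm.choose, rfl, h1.symm⟩, hm.choose_spec⟩
    have := hB ⟨_, h2, rfl⟩
    simp only at this
    omega
  -- `D` is closed, and all of its subsets are closed
  have hDclosed : ∀ E ⊆ D, IsClosed E := by
    intro E hE
    rw [← isOpen_compl_iff]
    refine ⟨?_, ?_⟩
    · intro n _
      refine ⟨g n, ?_⟩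
      intro m hm hmem
      obtain ⟨n', m', h, h'⟩ := hE hmem
      simp only [Arens.aa.injEq] at h
      obtain ⟨rfl, rfl⟩ := h
      omega
    · intro _
      refine ⟨0, ?_⟩
      intro n _ hmem
      obtain ⟨n', m', h, h'⟩ := hE hmem
      exact absurd h (by simp)
  have hDK : IsCompact (D ∩ K) := by
    rw [inter_comm]
    exact hK.inter_right (hDclosed D subset_rfl)
  have hdisc : DiscreteTopology (D ∩ K : Set Arens) := by
    rw [discreteTopology_iff_forall_isClosed]
    intro s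
    have : IsClosed (Subtype.val '' s : Set Arens) := by
      apply hDclosed
      rintro _ ⟨x, _, rfl⟩
      exact x.2.1
    have h2 := this.preimage (continuous_subtype_val (p := fun x => x ∈ D ∩ K))
    rwa [preimage_image_eq _ Subtype.val_injective] at h2
  have hcs : CompactSpace (D ∩ K : Set Arens) := isCompact_iff_compactSpace.1 hDK
  have hf : Finite (D ∩ K : Set Arens) := finite_of_compact_of_discrete
  exact hDinf (Set.toFinite _)

/-- The countable power of the Arens space carries a discontinuous real-valued function whose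
restriction to every compact subset is continuous. -/
theorem result : ∃ f : (ℕ → Arens) → ℝ,
    ¬ Continuous f ∧ ∀ K : Set (ℕ → Arens), IsCompact K → ContinuousOn f K := by
  refine Pool.Agent.Helper54.KRPower.exists_bad_function Arens.infty Arens.aa ?_ ?_ ?_ ?_
    (fun x => match x with | Arens.aa n 0 => n | _ => 0) ?_ rfl
    (fun j => Arens.aa j 0) (fun j => rfl)
  · intro n m h
    exact absurd h (by simp)
  · intro n m
    exact ⟨isClosed_singleton_aa n m, isOpen_singleton_aa n m⟩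
  · exact compact_columns
  · intro W hW hi
    obtain ⟨k, hk⟩ := hW.2 hi
    exact ⟨k, fun n hn => hW.1 n (hk n hn)⟩
  · refine continuous_def.2 ?_
    intro s _
    refine ⟨?_, ?_⟩
    · intro n hn
      refine ⟨1, ?_⟩
      intro m hm
      obtain ⟨m', rfl⟩ : ∃ m', m = m' + 1 := ⟨m - 1, by omega⟩
      exact hn
    · intro hi
      exact ⟨0, fun n _ => hi⟩

end Pool.Agent.Results.MP_d55beb_gt.ArensPower
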