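import Mathlib
import Pool.Agent.Helper54.KRPower

set_option autoImplicit false

namespace Pool.Agent.Results.MP_d55beb_gt.FanPower

open Set Topology

/-- The points of the sequential fan: the point `infty` and the points `pt n m`. -/
inductive Fan : Type
  | infty : Fan
  | pt (n m : ℕ) : Fan

/-- The topology of the sequential fan: every set missing `infty` is open, and a set `U`
containing `infty` is open when it contains `{pt n m : m ≥ f n}` for some `f : ℕ → ℕ`. -/
instance : TopologicalSpace Fan where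
  IsOpen U := Fan.infty ∈ U → ∃ f : ℕ → ℕ, ∀ n m, f n ≤ m → Fan.pt n m ∈ U
  isOpen_univ := fun _ => ⟨fun _ => 0, fun _ _ _ => trivial⟩
  isOpen_inter := by
    rintro U V hU hV ⟨hiU, hiV⟩
    obtain ⟨f, hf⟩ := hU hiU
    obtain ⟨g, hg⟩ := hV hiV
    exact ⟨fun n => max (f n) (g n), fun n m hm => ⟨hf n m (le_trans (le_max_left _ _) hm),
      hg n m (le_trans (le_max_right _ _) hm)⟩⟩
  isOpen_sUnion := by
    rintro S hS ⟨U, hUS, hiU⟩
    obtain ⟨f, hf⟩ := hS U hUS hiU
    exact ⟨f, fun n m hm => ⟨U, hUS, hf n m hm⟩⟩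

/-- The basic neighbourhood of `infty` given by `f`. -/
def basicInfty (f : ℕ → ℕ) : Set Fan := {x | x = Fan.infty ∨ ∃ n m, f n ≤ m ∧ x = Fan.pt n m}

/-- Sanity check: the neighbourhoods of `infty` are as in the usual definition. -/
theorem mem_nhds_infty {U : Set Fan} : U ∈ 𝓝 Fan.infty ↔ ∃ f, basicInfty f ⊆ U := by
  rw [mem_nhds_iff]
  constructor
  · rintro ⟨V, hVU, hV, hi⟩
    obtain ⟨f, hf⟩ := hV hi
    refine ⟨f, ?_⟩
    rintro x (rfl | ⟨n, m, hm, rfl⟩)
    · exact hVU hi
    · exact hVU (hf n m hm)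
  · rintro ⟨f, hf⟩
    refine ⟨basicInfty f, hf, ?_, Or.inl rfl⟩
    intro _
    exact ⟨f, fun n m hm => Or.inr ⟨n, m, hm, rfl⟩⟩

/-- Sanity check: the points `pt n m` are isolated. -/
theorem isOpen_singleton_pt (n m : ℕ) : IsOpen ({Fan.pt n m} : Set Fan) := by
  intro h
  exact absurd h (by simp)

theorem isClosed_singleton_pt (n m : ℕ) : IsClosed ({Fan.pt n m} : Set Fan) := by
  rw [← isOpen_compl_iff]
  intro _
  refine ⟨fun _ => m + 1, ?_⟩
  intro n' m' hm' h
  have hm2 : m + 1 ≤ m' := hm'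
  simp only [mem_singleton_iff, Fan.pt.injEq] at h
  omega

theorem compact_columns (K : Set Fan) (hK : IsCompact K) :
    ∃ N : ℕ, ∀ n m, Fan.pt n m ∈ K → n ≤ N := by
  classical
  by_contra hcon
  push Not at hcon
  have hex : ∀ N, ∃ n, N < n ∧ ∃ m, Fan.pt n m ∈ K := by
    intro N
    obtain ⟨n, m, h, hn⟩ := hcon N
    exact ⟨n, hn, m, h⟩
  set g : ℕ → ℕ := fun n => if h : ∃ m, Fan.pt n m ∈ K then h.choose + 1 else 0 with hg
  set D : Set Fan := {x | ∃ n m, x = Fan.pt n m ∧ m + 1 = g n} with hD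
  have hDinf : (D ∩ K).Infinite := by
    intro hfin
    have : ((fun x : Fan => match x with | Fan.pt n _ => n | _ => 0) '' (D ∩ K)).Finite :=
      hfin.image _
    obtain ⟨B, hB⟩ := this.bddAbove
    obtain ⟨n, hn, hm⟩ := hex B
    have h1 : g n = hm.choose + 1 := by simp only [hg, dif_pos hm]
    have h2 : Fan.pt n hm.choose ∈ D ∩ K := ⟨⟨n, hm.choose, rfl, h1.symm⟩, hm.choose_spec⟩
    have := hB ⟨_, h2, rfl⟩
    simp only at this
    omega
  have hDclosed : ∀ E ⊆ D, IsClosed E := by
    intro E hE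
    rw [← isOpen_compl_iff]
    intro _
    refine ⟨g, ?_⟩
    intro n m hm hmem
    obtain ⟨n', m', h, h'⟩ := hE hmem
    simp only [Fan.pt.injEq] at h
    obtain ⟨rfl, rfl⟩ := h
    omega
  have hDK : IsCompact (D ∩ K) := by
    rw [inter_comm]
    exact hK.inter_right (hDclosed D subset_rfl)
  have hdisc : DiscreteTopology (D ∩ K : Set Fan) := by
    rw [discreteTopology_iff_forall_isClosed]
    intro s
    have : IsClosed (Subtype.val '' s : Set Fan) := by
      apply hDclosed
      rintro _ ⟨x, _, rfl⟩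
      exact x.2.1
    have h2 := this.preimage (continuous_subtype_val (p := fun x => x ∈ D ∩ K))
    rwa [preimage_image_eq _ Subtype.val_injective] at h2
  have hcs : CompactSpace (D ∩ K : Set Fan) := isCompact_iff_compactSpace.1 hDK
  have hf : Finite (D ∩ K : Set Fan) := finite_of_compact_of_discrete
  exact hDinf (Set.toFinite _)

/-- The countable power of the sequential fan carries a discontinuous real-valued function whose
restriction to every compact subset is continuous. -/
theorem result : ∃ f : (ℕ → Fan) → ℝ,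
    ¬ Continuous f ∧ ∀ K : Set (ℕ → Fan), IsCompact K → ContinuousOn f K := by
  refine Pool.Agent.Helper54.KRPower.exists_bad_function Fan.infty Fan.pt ?_ ?_ ?_ ?_
    (fun x => match x with | Fan.pt n 0 => n | _ => 0) ?_ rfl
    (fun j => Fan.pt j 0) (fun j => rfl)
  · intro n m h
    exact absurd h (by simp)
  · intro n m
    exact ⟨isClosed_singleton_pt n m, isOpen_singleton_pt n m⟩
  · exact compact_columns
  · intro W hW hi
    obtain ⟨f, hf⟩ := hW hi
    exact ⟨0, fun n _ => ⟨f n, fun m hm => hf n m hm⟩⟩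
  · refine continuous_def.2 ?_
    intro s _
    intro hi
    refine ⟨fun _ => 1, ?_⟩
    intro n m hm
    have hm2 : 1 ≤ m := hm
    obtain ⟨m', rfl⟩ : ∃ m', m = m' + 1 := ⟨m - 1, by omega⟩
    exact hi

end Pool.Agent.Results.MP_d55beb_gt.FanPower
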